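import Pool.Agent.R855.Drop.Prop

/-!
# Dynamical degrees drop only on a set of parameters which is not Zariski dense

For every `N ≥ 1` and every family `f_T` of dominant rational self-maps of `ℙ^N` which depends
rationally on parameters `T = (T_1, …, T_k)`, and every `ε > 0`, the set of the parameters
`t ∈ ℂ^k` with `δ(f_t) ≤ δ(f) - ε` is not Zariski dense in `ℂ^k`.

The proof applies the uniform lower bound `δ(f) ≥ γ_N min_{n < N} deg (f^(n+1)) / deg (f^n)`
(`Pool.Agent.Helper993.CS.main_inf`, proved in the starting files) to the iterates `f_t^m`, together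
with the fact that, for each `n`, the degree of `f_t^n` is that of `f^n` outside a proper Zariski
closed set of parameters.
-/

set_option autoImplicit false

open MvPolynomial Filter Topology

namespace Pool.Agent.Results.MP_eeb8df_ag.DropsNotDense

/-- The field `ℂ(T_1, …, T_k)`. -/
abbrev RatFun (k : ℕ) : Type := FractionRing (MvPolynomial (Fin k) ℂ)

/-- `(N + 1)`-tuples of polynomials in `X_0, …, X_N`. -/
abbrev Tuple (K : Type) [Field K] (N : ℕ) : Type := Fin (N + 1) → MvPolynomial (Fin (N + 1)) K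

variable {K : Type} [Field K] {N : ℕ}

/-- The members of the tuple are homogeneous of one common degree. -/
def IsForms (f : Tuple K N) : Prop := ∃ d : ℕ, ∀ i, (f i).IsHomogeneous d

/-- The polynomials `f_0, …, f_N` have no nonconstant common factor. -/
def NoCommonFactor (f : Tuple K N) : Prop := ∀ q : MvPolynomial (Fin (N + 1)) K,
  (∀ i, q ∣ f i) → IsUnit q

/-- The tuple which is obtained by composing the tuple `f` with itself `n` times (common factors
are not removed). -/
noncomputable def compose (f : Tuple K N) : ℕ → Tuple K N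
  | 0 => X
  | n + 1 => fun i => bind₁ (compose f n) (f i)

/-- The rational map given by the tuple `P` has degree `e`: after removing from `P` a common factor
`H ≠ 0`, the members of the tuple are homogeneous of degree `e` and have no nonconstant common
factor. -/
def HasDegree (P : Tuple K N) (e : ℕ) : Prop :=
  ∃ (H : MvPolynomial (Fin (N + 1)) K) (G : Tuple K N), H ≠ 0 ∧ (∀ i, P i = H * G i) ∧
    (∀ i, (G i).IsHomogeneous e) ∧ NoCommonFactor G

/-- `δ` is the dynamical degree `lim deg (f^n) ^ (1 / n)` of the rational map given by the tuple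
`f`. -/
def HasDynamicalDegree (f : Tuple K N) (δ : ℝ) : Prop :=
  ∃ D : ℕ → ℕ, (∀ n, HasDegree (compose f n) (D n)) ∧
    Tendsto (fun n : ℕ => (D n : ℝ) ^ ((1 : ℝ) / n)) atTop (𝓝 δ)

/-- The rational function `c ∈ ℂ(T_1, …, T_k)` is defined at `t ∈ ℂ^k` and has the value `z`
there: `c = a / b` for polynomials `a`, `b` with `b(t) ≠ 0` and `z = a(t) / b(t)`. -/
def HasValue {k : ℕ} (c : RatFun k) (t : Fin k → ℂ) (z : ℂ) : Prop :=
  ∃ a b : MvPolynomial (Fin k) ℂ, eval t b ≠ 0 ∧
    c * algebraMap (MvPolynomial (Fin k) ℂ) (RatFun k) b =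
      algebraMap (MvPolynomial (Fin k) ℂ) (RatFun k) a ∧ z * eval t b = eval t a

/-- The tuple `g` over `ℂ` represents the specialised map `f_t`, common factors removed: all
coefficients of the family `F` are defined at `t`, and the tuple of the specialised polynomials is
`H g_0, …, H g_N`, where `H ≠ 0` and `g_0, …, g_N` are homogeneous of one common degree and have no
nonconstant common factor. -/
def IsSpecialisation {k : ℕ} (F : Tuple (RatFun k) N) (t : Fin k → ℂ) (g : Tuple ℂ N) : Prop :=
  ∃ (G : Tuple ℂ N) (H : MvPolynomial (Fin (N + 1)) ℂ),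
    (∀ i m, HasValue (coeff m (F i)) t (coeff m (G i))) ∧ H ≠ 0 ∧ (∀ i, G i = H * g i) ∧
      IsForms g ∧ NoCommonFactor g

/-- The parameters `t` at which `f_t` is defined and dominant with `δ(f_t) ≤ c`. -/
def dropSet {k : ℕ} (F : Tuple (RatFun k) N) (c : ℝ) : Set (Fin k → ℂ) :=
  {t | ∃ (g : Tuple ℂ N) (δ : ℝ), IsSpecialisation F t g ∧ AlgebraicIndependent ℂ g ∧
    HasDynamicalDegree g δ ∧ δ ≤ c}

/-- The set `S ⊆ ℂ^k` is Zariski dense: a polynomial which vanishes on `S` is zero. -/
def ZariskiDense {k : ℕ} (S : Set (Fin k → ℂ)) : Prop :=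
  ∀ P : MvPolynomial (Fin k) ℂ, (∀ t ∈ S, eval t P = 0) → P = 0

lemma compose_eq (f : Tuple K N) (n : ℕ) : compose f n = Pool.Agent.Helper993.CS.iter f n := by
  induction n with
  | zero => rfl
  | succ n ih =>
    funext i
    show bind₁ (compose f n) (f i) = bind₁ (Pool.Agent.Helper993.CS.iter f n) (f i)
    rw [ih]

lemma hasDyn_iff (f : Tuple K N) (δ : ℝ) :
    HasDynamicalDegree f δ ↔ Pool.Agent.R855.Drop.HasDyn f δ := by
  unfold HasDynamicalDegree Pool.Agent.R855.Drop.HasDyn
  simp only [compose_eq]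
  rfl

/-- A dominant rational self-map of `ℙ^N`, `N ≥ 1`, has exactly one dynamical degree. -/
theorem exists_unique_dynamicalDegree [Infinite K] (hN : 1 ≤ N) (f : Tuple K N)
    (hf : IsForms f) (hdom : AlgebraicIndependent K f) : ∃! δ, HasDynamicalDegree f δ := by
  obtain ⟨d, hd⟩ := hf
  obtain ⟨δ, h1, h2⟩ := Pool.Agent.R855.Drop.exists_unique_dyn hN f hd hdom
  exact ⟨δ, (hasDyn_iff f δ).2 h1, fun δ' h => h2 δ' ((hasDyn_iff f δ').1 h)⟩

/-- **The dynamical degree drops only on a set which is not Zariski dense.**  Let `F` be a family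
of dominant rational self-maps of `ℙ^N`, `N ≥ 1`, depending rationally on `T_1, …, T_k`.  The
generic member has a dynamical degree `δ(f)`, every dominant specialisation has one, and for
every `ε > 0` the set of `t ∈ ℂ^k` with `δ(f_t) ≤ δ(f) - ε` is not Zariski dense in `ℂ^k`. -/
theorem result (N : ℕ) (hN : 1 ≤ N) (k : ℕ) (F : Tuple (RatFun k) N) (hF : IsForms F)
    (hdom : AlgebraicIndependent (RatFun k) F) :
    (∃! δ, HasDynamicalDegree F δ) ∧
    (∀ (t : Fin k → ℂ) (g : Tuple ℂ N), IsSpecialisation F t g → AlgebraicIndependent ℂ g →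
      ∃! δ, HasDynamicalDegree g δ) ∧
    ∀ δ : ℝ, HasDynamicalDegree F δ → ∀ ε : ℝ, 0 < ε → ¬ ZariskiDense (dropSet F (δ - ε)) := by
  haveI : Infinite (RatFun k) :=
    Infinite.of_injective (fun z : ℂ => algebraMap (MvPolynomial (Fin k) ℂ) (RatFun k) (C z))
      ((IsFractionRing.injective (MvPolynomial (Fin k) ℂ) (RatFun k)).comp (C_injective _ _))
  refine ⟨exists_unique_dynamicalDegree hN F hF hdom, fun t g hg hgdom =>
    exists_unique_dynamicalDegree hN g (by obtain ⟨_, _, _, _, _, h, _⟩ := hg; exact h) hgdom,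
    fun δ hδ ε hε hdense => ?_⟩
  obtain ⟨d, hd⟩ := hF
  obtain ⟨r, hr, hmain⟩ := Pool.Agent.R855.Drop.main (R := MvPolynomial (Fin k) ℂ) hN F hd hdom δ
    ((hasDyn_iff F δ).1 hδ) ε hε
  apply hr
  apply hdense
  rintro t ⟨g, δ', ⟨G, H, hval, hH, hGg, ⟨e, he⟩, -⟩, hgdom, hδ', hle⟩
  by_contra hne
  have hspec : Pool.Agent.R855.Drop.Spec (eval t) F G := hval
  have hGd : ∀ i, (G i).IsHomogeneous d := Pool.Agent.R855.Drop.spec_hom (eval t) F G hspec hd
  have h1 := hmain ℂ (eval t) hne G hspec hGd
    (Pool.Agent.R855.Drop.algInd_mul g G H he hGd hGg hH hgdom) δ'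
    (Pool.Agent.R855.Drop.hasDyn_mul g G H he hGd hGg hH hgdom δ' ((hasDyn_iff g δ').1 hδ'))
  linarith

end Pool.Agent.Results.MP_eeb8df_ag.DropsNotDense
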